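import Pool.Agent.TH289.L.Q4

set_option autoImplicit false

open scoped Manifold ContDiff Topology
open Set Filter

namespace Pool.Agent.Results.MP_610fe3_an.FibreCriterion

open Pool.Agent.H721R2 Pool.Agent.H789R2.AN Pool.Agent.TH289.L

/-- **One fibre decides about transitivity.**
Let `f` be a `C¹` Anosov diffeomorphism of a closed connected manifold `M`, let `g` be a
topologically transitive homeomorphism of a compact Hausdorff space `Y`, and let `h : M → Y` be
continuous with `h ∘ f = g ∘ h`.  Suppose that the image under `h` of every nonempty open set has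
nonempty interior (for instance `h` is open, e.g. a bundle projection), or that `Y` is a topological
manifold of dimension at most `dim M` and the fibres of `h` are totally disconnected.

If the points of ONE fibre `h⁻¹(y₀)` are chain equivalent for `f` (for every neighbourhood `𝒰` of the
diagonal there is a `𝒰`-chain of `f` in `M` from each of them to each other one), for instance if
this fibre is a single point, or if it is periodic and its return map is transitive, then `f` is
topologically transitive. -/
theorem result (E : Type*) [NormedAddCommGroup E] [NormedSpace ℝ E] [FiniteDimensional ℝ E]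
    (M : Type*) [TopologicalSpace M] [T2Space M] [CompactSpace M] [ConnectedSpace M]
    [ChartedSpace E M] [IsManifold 𝓘(ℝ, E) ∞ M] (f : Diffeomorph 𝓘(ℝ, E) 𝓘(ℝ, E) M M 1)
    (Es Eu : ∀ x : M, Submodule ℝ (TangentSpace 𝓘(ℝ, E) x)) (hf : IsAnosov f Es Eu)
    (Y : Type*) [TopologicalSpace Y] [CompactSpace Y] [T2Space Y] (g : Y ≃ₜ Y)
    (ht : TopTransitive g) (h : C(M, Y)) (hfg : ∀ x, h (f x) = g (h x))
    (hdim : (∀ W : Set M, IsOpen W → W.Nonempty → (interior (h '' W)).Nonempty) ∨
      ((∃ k ≤ Module.finrank ℝ E, Nonempty (ChartedSpace (EuclideanSpace ℝ (Fin k)) Y)) ∧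
        ∀ y, IsTotallyDisconnected (h ⁻¹' {y})))
    (y₀ : Y) (hch : ∀ x ∈ h ⁻¹' {y₀}, ∀ x' ∈ h ⁻¹' {y₀}, ∀ 𝒰 ∈ 𝓝ˢ (diagonal M),
      Relation.ReflTransGen (fun a b => (f a, b) ∈ 𝒰) x x') :
    TopTransitive f := by
  have hint : ∀ W : Set M, IsOpen W → W.Nonempty → (interior (h '' W)).Nonempty := by
    rcases hdim with hint | ⟨⟨k, hk, ⟨_⟩⟩, hl⟩
    · exact hint
    · intro W hW hne
      exact light_interior (E := E) (E' := EuclideanSpace ℝ (Fin k)) (by simpa using hk)
        h.continuous hl hW hne
  exact man_fibre f Es Eu hf ht h.continuous hfg hint hch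

end Pool.Agent.Results.MP_610fe3_an.FibreCriterion
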