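import Pool.Agent.TH289.L.Q3

set_option autoImplicit false

open scoped Manifold ContDiff Topology
open Set Filter

namespace Pool.Agent.Results.MP_610fe3_an.FiniteToOneExtension

open Pool.Agent.H721R2 Pool.Agent.H789R2.AN Pool.Agent.TH289.L

/-- **Finite-to-one extensions of nonwandering homeomorphisms.**
Let `f` be a `C¹` Anosov diffeomorphism of a closed connected manifold `M`, let `g` be a
homeomorphism of a compact Hausdorff space `Y`, and let `h : M → Y` be continuous with
`h ∘ f = g ∘ h`.  Suppose that
* `Y` is a topological manifold of dimension at most `dim M` and the fibres of `h` are totally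
  disconnected, or, more generally, the image under `h` of every nonempty open set has nonempty
  interior (for instance `h` is open); and
* all fibres of `h` are finite and all points of `Y` are nonwandering for `g` (for instance `g`
  preserves a finite measure of full support), or ONE fibre of `h`, over a point with dense
  (two-sided) orbit, is finite.

Then `f` is topologically transitive.  Nothing is assumed on `M`, its fundamental group or the
bundles of `f`, and `g` need not be hyperbolic. -/
theorem result (E : Type*) [NormedAddCommGroup E] [NormedSpace ℝ E] [FiniteDimensional ℝ E]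
    (M : Type*) [TopologicalSpace M] [T2Space M] [CompactSpace M] [ConnectedSpace M]
    [ChartedSpace E M] [IsManifold 𝓘(ℝ, E) ∞ M] (f : Diffeomorph 𝓘(ℝ, E) 𝓘(ℝ, E) M M 1)
    (Es Eu : ∀ x : M, Submodule ℝ (TangentSpace 𝓘(ℝ, E) x)) (hf : IsAnosov f Es Eu)
    (Y : Type*) [TopologicalSpace Y] [CompactSpace Y] [T2Space Y] (g : Y ≃ₜ Y)
    (h : C(M, Y)) (hfg : ∀ x, h (f x) = g (h x))
    (hdim : ((∃ k ≤ Module.finrank ℝ E, Nonempty (ChartedSpace (EuclideanSpace ℝ (Fin k)) Y)) ∧
        ∀ y, IsTotallyDisconnected (h ⁻¹' {y})) ∨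
      ∀ W : Set M, IsOpen W → W.Nonempty → (interior (h '' W)).Nonempty)
    (hfin : ((∀ y, (h ⁻¹' {y}).Finite) ∧
        ∀ V : Set Y, IsOpen V → V.Nonempty → ∃ m : ℕ, 1 ≤ m ∧ (g^[m] '' V ∩ V).Nonempty) ∨
      ∃ y₀ : Y, (h ⁻¹' {y₀}).Finite ∧ Dense {z | ∃ n : ℕ, g^[n] y₀ = z ∨ g^[n] z = y₀}) :
    TopTransitive f := by
  have hint : ∀ W : Set M, IsOpen W → W.Nonempty → (interior (h '' W)).Nonempty := by
    rcases hdim with ⟨⟨k, hk, ⟨_⟩⟩, hl⟩ | hint
    · intro W hW hne
      exact light_interior (E := E) (E' := EuclideanSpace ℝ (Fin k)) (by simpa using hk)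
        h.continuous hl hW hne
    · exact hint
  refine man_nw f Es Eu hf fun W hW hne => ?_
  rcases hfin with ⟨hfin, hg⟩ | ⟨y₀, hfin, hd⟩
  · exact nw_of_finite (f := f.toHomeomorph) hfg hint hfin hg W hW hne
  · exact nw_of_one (f := f.toHomeomorph) h.continuous hfg hint hfin hd W hW hne

end Pool.Agent.Results.MP_610fe3_an.FiniteToOneExtension
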