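import Pool.Agent.TH289.L.P3

set_option autoImplicit false

open scoped Manifold ContDiff Topology
open Set Filter

namespace Pool.Agent.Results.MP_610fe3_an.LightFactor

open Pool.Agent.H721R2 Pool.Agent.H789R2.AN Pool.Agent.TH289.K Pool.Agent.TH289.L

/-- **Anosov diffeomorphisms with a semiconjugacy that is light along one foliation.**
Let `f`, `g` be `C¹` Anosov diffeomorphisms of closed connected manifolds `M`, `M'` and let
`h : M → M'` be continuous with `h ∘ f = g ∘ h`.  Suppose that `g` has global product structure
(`GPS`: each stable path and each unstable path with the same initial point span a rectangle; for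
instance `g` is a hyperbolic automorphism of an infranilmanifold), and that `h` collapses no
nontrivial continuum of a stable leaf (`Light f h`), or no nontrivial continuum of an unstable leaf
(`Light f.symm h`); for instance that `h` has finite, countable or totally disconnected fibres.

Then `f` is topologically transitive and has global product structure. -/
theorem result (E : Type*) [NormedAddCommGroup E] [NormedSpace ℝ E] [FiniteDimensional ℝ E]
    (M : Type*) [TopologicalSpace M] [T2Space M] [CompactSpace M] [ConnectedSpace M]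
    [ChartedSpace E M] [IsManifold 𝓘(ℝ, E) ∞ M] (f : Diffeomorph 𝓘(ℝ, E) 𝓘(ℝ, E) M M 1)
    (Es Eu : ∀ x : M, Submodule ℝ (TangentSpace 𝓘(ℝ, E) x)) (hf : IsAnosov f Es Eu)
    (E' : Type*) [NormedAddCommGroup E'] [NormedSpace ℝ E'] [FiniteDimensional ℝ E']
    (M' : Type*) [TopologicalSpace M'] [T2Space M'] [CompactSpace M'] [ConnectedSpace M']
    [ChartedSpace E' M'] [IsManifold 𝓘(ℝ, E') ∞ M'] (g : Diffeomorph 𝓘(ℝ, E') 𝓘(ℝ, E') M' M' 1)
    (Es' Eu' : ∀ x : M', Submodule ℝ (TangentSpace 𝓘(ℝ, E') x)) (hg : IsAnosov g Es' Eu')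
    (hG : GPS g.toHomeomorph) (h : C(M, M')) (hfg : ∀ x, h (f x) = g (h x))
    (hL : Light f.toHomeomorph h ∨ Light f.toHomeomorph.symm h) :
    TopTransitive f ∧ GPS f.toHomeomorph := by
  obtain ⟨h1, h2, -⟩ := man_light f Es Eu hf g Es' Eu' hg h h.continuous hfg hL hG
  exact ⟨h1, h2⟩

end Pool.Agent.Results.MP_610fe3_an.LightFactor
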