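import Pool.Agent.TH289.HomMain

set_option autoImplicit false

open scoped Manifold ContDiff Topology
open Set Filter

namespace Pool.Agent.Results.MP_610fe3_an.SeparatingFactor

open Pool.Agent.H721R2 Pool.Agent.H789R2.AN Pool.Agent.TH289

/-- **Transitivity of Anosov diffeomorphisms that have a transitive Anosov factor separating the
periodic points of one attractor.**
Let `f` be a `C¹` Anosov diffeomorphism of a closed connected manifold `M` and `g` a topologically
transitive `C¹` Anosov diffeomorphism of a closed manifold `M'` with `dim M' ≤ dim M`, and let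
`h : M → M'` be continuous with `h ∘ f = g ∘ h`.  Let `L ⊆ M` be a nonempty closed `f`-invariant set
that is a union of unstable sets (e.g. an attractor, or `M`), and suppose that `h` takes different
values at different homoclinically related periodic points of `f` in `L`.  Suppose moreover that
the stable rank of `f` is at most that of `g`, or that `h` has the same separation property on some
nonempty closed `f`-invariant set `L'` that is a union of stable sets (e.g. `L = L' = M`).
Then `L = M`, `f` is topologically transitive, and `h` is a homeomorphism, so that it conjugates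
`f` to `g`. -/
theorem result (E : Type*) [NormedAddCommGroup E] [NormedSpace ℝ E] [FiniteDimensional ℝ E]
    (M : Type*) [TopologicalSpace M] [T2Space M] [CompactSpace M] [ConnectedSpace M]
    [ChartedSpace E M] [IsManifold 𝓘(ℝ, E) ∞ M] (f : Diffeomorph 𝓘(ℝ, E) 𝓘(ℝ, E) M M 1)
    (Es Eu : ∀ x : M, Submodule ℝ (TangentSpace 𝓘(ℝ, E) x)) (hf : IsAnosov f Es Eu)
    (s u : ℕ) (hs : ∀ x, Module.finrank ℝ (Es x) = s) (hu : ∀ x, Module.finrank ℝ (Eu x) = u)
    (E' : Type*) [NormedAddCommGroup E'] [NormedSpace ℝ E'] [FiniteDimensional ℝ E']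
    (M' : Type*) [TopologicalSpace M'] [T2Space M'] [CompactSpace M']
    [ChartedSpace E' M'] [IsManifold 𝓘(ℝ, E') ∞ M'] (g : Diffeomorph 𝓘(ℝ, E') 𝓘(ℝ, E') M' M' 1)
    (Es' Eu' : ∀ x : M', Submodule ℝ (TangentSpace 𝓘(ℝ, E') x)) (hg : IsAnosov g Es' Eu')
    (s' u' : ℕ) (hs' : ∀ x, Module.finrank ℝ (Es' x) = s')
    (hu' : ∀ x, Module.finrank ℝ (Eu' x) = u') (hgt : TopTransitive g)
    (hdim : Module.finrank ℝ E' ≤ Module.finrank ℝ E)
    (h : C(M, M')) (hfg : ∀ x, h (f x) = g (h x))
    (L : Set M) (hL : UnstSat f.toHomeomorph L) (hsep : Separates f.toHomeomorph h L)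
    (hr : s ≤ s' ∨ ∃ L' : Set M, UnstSat f.toHomeomorph.symm L' ∧
      Separates f.toHomeomorph h L') :
    L = univ ∧ TopTransitive f ∧ IsHomeomorph h := by
  obtain ⟨h1, h2, h3, -, -⟩ := man_main f Es Eu hf hs hu g Es' Eu' hg hs' hu' hgt hdim h
    h.continuous hfg L hL hsep hr
  exact ⟨h1, h3, h2⟩

end Pool.Agent.Results.MP_610fe3_an.SeparatingFactor
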